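import Pool.Agent.H32.QC.TargetsL

/-!
# Row NIA: norm index and square classes for a quadratic extension of fields
-/

set_option autoImplicit false

open NumberField IsDedekindDomain Pool.Agent.H32.QC

namespace Pool.Agent.H99.QCL

open QuadraticAlgebra

section

variable {K : Type} [Field K] {t : K}

theorem t_ne (ht : ¬ IsSquare t) : t ≠ 0 := fun h => ht ⟨0, by rw [h, mul_zero]⟩

theorem nsq_congr {L A : Type} [Field L] [Field A] (φ : Aˣ ≃* Lˣ) : nsq A = nsq L := by
  unfold nsq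
  rw [← Subgroup.index_comap_of_surjective (H := (powMonoidHom 2 : Lˣ →* Lˣ).range)
    (f := φ.toMonoidHom) φ.surjective]
  congr 1
  ext a
  rw [Subgroup.mem_comap, MonoidHom.mem_range, MonoidHom.mem_range]
  constructor
  · rintro ⟨b, hb⟩
    refine ⟨φ b, ?_⟩
    rw [← hb]
    exact (map_pow φ b 2).symm
  · rintro ⟨b, hb⟩
    refine ⟨φ.symm b, φ.injective ?_⟩
    have h1 : φ (φ.symm b ^ 2) = b ^ 2 := by rw [map_pow, MulEquiv.apply_symm_apply]
    exact h1.trans hb

variable [Fact (∀ r : K, r ^ 2 ≠ t + 0 * r)]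

/-- the quadratic extension -/
abbrev AA (K : Type) [Field K] (t : K) : Type := QuadraticAlgebra K t 0

/-- the embedding of the units -/
noncomputable def jj (K : Type) [Field K] (t : K) [Fact (∀ r : K, r ^ 2 ≠ t + 0 * r)] :
    Kˣ →* (AA K t)ˣ := Units.map (algebraMap K (AA K t) : K →* AA K t)

/-- the conjugation -/
noncomputable def ss (K : Type) [Field K] (t : K) [Fact (∀ r : K, r ^ 2 ≠ t + 0 * r)] :
    (AA K t)ˣ →* (AA K t)ˣ := Units.map (starRingEnd (AA K t) : AA K t →* AA K t)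

theorem jj_val (c : Kˣ) : ((jj K t c : (AA K t)ˣ) : AA K t) = ⟨c, 0⟩ := rfl

theorem ss_val (x : (AA K t)ˣ) : ((ss K t x : (AA K t)ˣ) : AA K t) = star (x : AA K t) := rfl

theorem jj_inj : Function.Injective (jj K t) := by
  intro a b h
  have h1 : ((jj K t a : (AA K t)ˣ) : AA K t) = (jj K t b : (AA K t)ˣ) := by rw [h]
  rw [jj_val, jj_val] at h1
  exact Units.ext (congrArg QuadraticAlgebra.re h1)

theorem ss_ss (x : (AA K t)ˣ) : ss K t (ss K t x) = x := by
  refine Units.ext ?_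
  rw [ss_val, ss_val, star_star]

theorem mem_B (h2 : (2 : K) ≠ 0) (x : (AA K t)ˣ) : x ∈ (jj K t).range ↔ ss K t x = x := by
  constructor
  · rintro ⟨c, rfl⟩
    refine Units.ext ?_
    rw [ss_val, jj_val, QuadraticAlgebra.star_mk, mul_zero, add_zero, neg_zero]
  · intro h
    have h1 : star (x : AA K t) = (x : AA K t) := by rw [← ss_val, h]
    have h3 : -(x : AA K t).im = (x : AA K t).im := by
      conv_rhs => rw [← h1]
      rfl
    have h4 : (x : AA K t).im = 0 := by
      have : 2 * (x : AA K t).im = 0 := by linear_combination -h3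
      exact (mul_eq_zero.1 this).resolve_left h2
    have h5 : (x : AA K t).re ≠ 0 := by
      intro h0
      exact x.ne_zero (QuadraticAlgebra.ext h0 h4)
    refine ⟨Units.mk0 _ h5, Units.ext ?_⟩
    rw [jj_val]
    exact QuadraticAlgebra.ext rfl h4.symm

theorem h90 (x : (AA K t)ˣ) (ht : t ≠ 0) (hx : x * ss K t x = 1) :
    ∃ y, x = y / ss K t y := by
  have h1 : (x : AA K t) * star (x : AA K t) = 1 := by
    rw [← ss_val, ← Units.val_mul, hx, Units.val_one]
  by_cases h : 1 + (x : AA K t) = 0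
  · have hw : (⟨0, 1⟩ : AA K t) ≠ 0 := by
      intro h0
      exact one_ne_zero (congrArg QuadraticAlgebra.im h0)
    refine ⟨Units.mk0 _ hw, ?_⟩
    rw [eq_div_iff_mul_eq']
    refine Units.ext ?_
    rw [Units.val_mul, ss_val, Units.val_mk0, QuadraticAlgebra.star_mk]
    have h2 : (x : AA K t) = -1 := by linear_combination h
    rw [h2, neg_one_mul]
    refine QuadraticAlgebra.ext ?_ ?_ <;> simp
  · refine ⟨Units.mk0 _ h, ?_⟩
    rw [eq_div_iff_mul_eq']
    refine Units.ext ?_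
    rw [Units.val_mul, ss_val, Units.val_mk0, star_add, star_one]
    linear_combination h1

theorem sq_val (z : AA K t) : z ^ 2 = ⟨z.re ^ 2 + t * z.im ^ 2, 2 * z.re * z.im⟩ := by
  rw [sq]
  refine QuadraticAlgebra.ext ?_ ?_
  · rw [QuadraticAlgebra.re_mul]
    ring
  · rw [QuadraticAlgebra.im_mul]
    ring

theorem mem_Bq (c : Kˣ) : jj K t c ∈ (jj K t).range.map (powMonoidHom 2) ↔ IsSquare (c : K) := by
  constructor
  · rintro ⟨_, ⟨d, rfl⟩, h⟩
    have h1 : jj K t (d ^ 2) = jj K t c := by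
      rw [map_pow]
      exact h
    refine ⟨(d : K), ?_⟩
    rw [← jj_inj h1, Units.val_pow_eq_pow_val, sq]
  · rintro ⟨d, hd⟩
    have hd0 : d ≠ 0 := by
      rintro rfl
      exact c.ne_zero (by rw [hd, mul_zero])
    refine ⟨jj K t (Units.mk0 d hd0), ⟨_, rfl⟩, ?_⟩
    have h1 : (powMonoidHom 2 : (AA K t)ˣ →* (AA K t)ˣ) (jj K t (Units.mk0 d hd0)) =
      jj K t (Units.mk0 d hd0 ^ 2) := (map_pow _ _ 2).symm
    rw [h1]
    congr 1
    refine Units.ext ?_
    rw [Units.val_pow_eq_pow_val, Units.val_mk0, hd, sq]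

theorem idx1 : ((jj K t).range.map (powMonoidHom 2)).relIndex (jj K t).range = nsq K := by
  rw [← Subgroup.index_comap]
  unfold nsq
  congr 1
  ext c
  rw [Subgroup.mem_comap, mem_Bq]
  constructor
  · rintro ⟨d, hd⟩
    have hd0 : d ≠ 0 := by
      rintro rfl
      exact c.ne_zero (by rw [hd, mul_zero])
    refine ⟨Units.mk0 d hd0, Units.ext ?_⟩
    show ((Units.mk0 d hd0 ^ 2 : Kˣ) : K) = c
    rw [Units.val_pow_eq_pow_val, Units.val_mk0, hd, sq]
  · rintro ⟨d, rfl⟩
    refine ⟨(d : K), ?_⟩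
    show ((d ^ 2 : Kˣ) : K) = d * d
    rw [Units.val_pow_eq_pow_val, sq]

theorem idx2 (h2 : (2 : K) ≠ 0) (ht : ¬ IsSquare t) :
    ((jj K t).range.map (powMonoidHom 2)).relIndex
      ((jj K t).range ⊓ (powMonoidHom 2 : (AA K t)ˣ →* (AA K t)ˣ).range) = 2 := by
  have ht0 : t ≠ 0 := t_ne ht
  rw [Subgroup.relIndex_eq_two_iff_exists_notMem_and]
  have hw : (⟨0, 1⟩ : AA K t) ≠ 0 := by
    intro h0
    exact one_ne_zero (congrArg QuadraticAlgebra.im h0)
  refine ⟨jj K t (Units.mk0 t ht0), ⟨⟨_, rfl⟩, ⟨Units.mk0 _ hw, ?_⟩⟩, ?_, ?_⟩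
  · refine Units.ext ?_
    show ((Units.mk0 _ hw ^ 2 : (AA K t)ˣ) : AA K t) = _
    rw [Units.val_pow_eq_pow_val, Units.val_mk0, jj_val, sq_val]
    refine QuadraticAlgebra.ext ?_ ?_
    · show (0 : K) ^ 2 + t * 1 ^ 2 = t
      ring
    · show 2 * (0 : K) * 1 = 0
      ring
  · rw [mem_Bq]
    exact ht
  · rintro b ⟨⟨c, rfl⟩, ⟨z, hz⟩⟩
    have h1 : (z : AA K t) ^ 2 = ⟨c, 0⟩ := by
      rw [← jj_val (t := t) c, ← hz]
      rfl
    rw [sq_val] at h1
    have h3 := congrArg QuadraticAlgebra.im h1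
    have h4 := congrArg QuadraticAlgebra.re h1
    have h3' : 2 * (z : AA K t).re * (z : AA K t).im = 0 := h3
    have h4' : (z : AA K t).re ^ 2 + t * (z : AA K t).im ^ 2 = (c : K) := h4
    rw [← map_mul, mem_Bq, mem_Bq]
    rcases mul_eq_zero.1 h3' with h5 | h5
    · left
      have h6 : (z : AA K t).re = 0 := (mul_eq_zero.1 h5).resolve_left h2
      refine ⟨t * (z : AA K t).im, ?_⟩
      rw [Units.val_mul, Units.val_mk0, ← h4', h6]
      ring
    · right
      refine ⟨(z : AA K t).re, ?_⟩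
      rw [← h4', h5]
      ring

theorem mem_N (ht : ¬ IsSquare t) (b : Kˣ) :
    jj K t b ∈ (MonoidHom.id (AA K t)ˣ * ss K t).range ↔ Sol t (b : K) := by
  constructor
  · rintro ⟨z, hz⟩
    have h1 : (z : AA K t) * star (z : AA K t) = ⟨b, 0⟩ := by
      rw [← jj_val (t := t) b, ← hz]
      rfl
    have h2 := congrArg QuadraticAlgebra.re h1
    have h3 : (z : AA K t).re * ((z : AA K t).re + 0 * (z : AA K t).im) +
        t * (z : AA K t).im * (-(z : AA K t).im) = (b : K) := h2
    refine ⟨(z : AA K t).im, 1, (z : AA K t).re, Or.inr (Or.inl one_ne_zero), ?_⟩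
    rw [← h3]
    ring
  · rintro ⟨x, y, z, hne, h⟩
    have hy : y ≠ 0 := by
      rintro rfl
      by_cases hx : x = 0
      · rw [hx] at h
        have hz : z = 0 := by
          have : z ^ 2 = 0 := by rw [h]; ring
          exact pow_eq_zero_iff (two_ne_zero) |>.1 this
        rcases hne with h' | h' | h'
        · exact h' hx
        · exact h' rfl
        · exact h' hz
      · refine ht ⟨z / x, ?_⟩
        field_simp
        rw [h]
        ring
    have hn : (⟨z / y, x / y⟩ : AA K t) * star (⟨z / y, x / y⟩ : AA K t) = ⟨b, 0⟩ := by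
      refine QuadraticAlgebra.ext ?_ ?_
      · show z / y * (z / y + 0 * (x / y)) + t * (x / y) * (-(x / y)) = (b : K)
        field_simp
        linear_combination h
      · show z / y * (-(x / y)) + x / y * (z / y + 0 * (x / y)) + 0 * (x / y) * (-(x / y)) = 0
        ring
    have hw : (⟨z / y, x / y⟩ : AA K t) ≠ 0 := by
      intro h0
      rw [h0, zero_mul] at hn
      exact b.ne_zero (congrArg QuadraticAlgebra.re hn).symm
    refine ⟨Units.mk0 _ hw, Units.ext ?_⟩
    rw [jj_val, ← hn]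
    rfl

end

theorem pf_NIA (hAL : T_AL) : T_NIA := by
  intro K L _ _ _ t s h2 ht hs hdeg hK hL
  have hF : Fact (∀ r : K, r ^ 2 ≠ t + 0 * r) := ⟨fun r h => ht ⟨r, by
    rw [zero_mul, add_zero] at h
    rw [← h, sq]⟩⟩
  have hs' : s * s = t • (1 : L) + (0 : K) • s := by
    rw [zero_smul, add_zero, ← sq, hs, Algebra.algebraMap_eq_smul_one]
  let f : AA K t →ₐ[K] L := QuadraticAlgebra.lift ⟨s, hs'⟩
  have hfi : Function.Injective f := f.toRingHom.injective
  have hfr : Module.finrank K (AA K t) = Module.finrank K L := by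
    rw [hdeg]
    exact QuadraticAlgebra.finrank_eq_two t 0
  have : FiniteDimensional K L := FiniteDimensional.of_finrank_pos (by rw [hdeg]; norm_num)
  have hfs : Function.Surjective f :=
    (LinearMap.injective_iff_surjective_of_finrank_eq_finrank (f := f.toLinearMap) hfr).1 hfi
  let e : AA K t ≃ₐ[K] L := AlgEquiv.ofBijective f ⟨hfi, hfs⟩
  have hnsq : nsq (AA K t) = nsq L := nsq_congr (Units.mapEquiv e.toMulEquiv)
  have hmain := hAL (AA K t)ˣ (ss K t) ss_ss (fun x hx => h90 x (t_ne ht) hx) (jj K t).range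
    (mem_B h2) (by
      have : nsq (AA K t) ≠ 0 := by rw [hnsq]; exact hL
      exact this) (by rw [idx1]; exact hK) (idx2 h2 ht)
  rw [idx1] at hmain
  refine ⟨(MonoidHom.id (AA K t)ˣ * ss K t).range.comap (jj K t), ?_, ?_⟩
  · intro b
    rw [Subgroup.mem_comap]
    exact mem_N ht b
  · rw [Subgroup.index_comap, ← hnsq]
    exact hmain

end Pool.Agent.H99.QCL
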